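import Pool.Agent.Helper53.CG.ER
import Pool.Agent.Helper88.CG.TE
import Pool.Agent.Helper88.CG.MainA
import Pool.Agent.Helper23.MC.Goals2

/-! # ERA: the total error term for the weights at the primes, `y ≤ (log x)^A`

Adaptation of `Pool/Agent/Helper53/CG/ER.lean`. -/

set_option autoImplicit false

open Finset Filter Topology

open scoped Classical

namespace Pool.Agent.Helper26.MC

open Pool.Agent.Helper88.CG
open Pool.Agent.Helper23.MC (SrA StmtEBA StmtERA)
open Pool.Agent.Helper53.CG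
open Pool.Agent.Helper88.PP (pr Rg om Sf SS QQ XX)
open Pool.Agent.Helper88.RR (nz)
open Pool.Agent.Helper88.GM (NI XI Sr)
open Pool.Agent.Helper64.RR (mem_pr sum_pr_le fact_est)
open Pool.Agent.Helper74.PP (sum_pr_sq one_sub_sum_le_prod om_lower M_lower ap_exists)

theorem thrA (A : ℕ) (c0 M : ℝ) (hc0 : 0 < c0) (hM : 0 ≤ M) : ∃ E0 : ℕ, ∀ E : ℕ, E0 ≤ E →
    25 + 4 * (E : ℝ) ≤ Real.exp (c0 / 4 * E) ∧
    ∀ w : ℝ, 0 ≤ w → w ^ 3 ≤ E → ∀ k : ℕ, k ^ 3 ≤ E →
      ((k : ℝ) + 1) * (M + (2 * A + 5) * w) ≤ c0 / 8 * E := by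
  obtain ⟨E1, h1⟩ := thr c0 M hc0 hM
  obtain ⟨E2, h2⟩ := thr (c0 / (2 * A + 5)) M (by positivity) hM
  refine ⟨max E1 E2, fun E hE => ⟨(h1 E (le_trans (le_max_left _ _) hE)).1, ?_⟩⟩
  intro w hw0 hw k hk
  have h3 := (h2 E (le_trans (le_max_right _ _) hE)).2 w hw0 hw k hk
  have hA0 : (0 : ℝ) ≤ A := Nat.cast_nonneg _
  have h4 : ((k : ℝ) + 1) * (M + (2 * A + 5) * w) ≤ (2 * A + 5) * (((k : ℝ) + 1) * (M + 5 * w)) := by
    have hk0 : (0 : ℝ) ≤ (k : ℝ) + 1 := by positivity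
    have h5 : M + (2 * A + 5) * w ≤ (2 * A + 5) * (M + 5 * w) := by nlinarith only [hM, hw0, hA0, mul_nonneg hA0 hM, mul_nonneg hA0 hw0]
    calc ((k : ℝ) + 1) * (M + (2 * A + 5) * w) ≤ ((k : ℝ) + 1) * ((2 * A + 5) * (M + 5 * w)) :=
          mul_le_mul_of_nonneg_left h5 hk0
      _ = _ := by ring
  refine h4.trans ?_
  calc (2 * (A : ℝ) + 5) * (((k : ℝ) + 1) * (M + 5 * w)) ≤ (2 * (A : ℝ) + 5) * (c0 / (2 * A + 5) / 8 * E) :=
        mul_le_mul_of_nonneg_left h3 (by positivity)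
    _ = c0 / 8 * E := by
        field_simp

theorem parA (A E z x y : ℕ) (hEA : 2000 + A ^ 2 ≤ E) (hSr : SrA A E z x y) :
    (E : ℝ) ≤ Real.log z ∧ (E : ℝ) * Real.log z ≤ Real.log x ∧ 0 ≤ Real.log (Real.log x) ∧
    Real.exp (Real.log (Real.log x)) = Real.log x ∧ y < z ∧
    (y : ℝ) ≤ Real.exp (A * Real.log (Real.log x)) ∧ 0 < x ∧
    (QQ x : ℝ) ≤ Real.exp (7 / 100 * Real.log x) := by
  have hE : 2000 ≤ E := by omega
  obtain ⟨hz1, hx1, hx2, hy1, hy2, hL3⟩ := hSr
  have hE' : (2000 : ℝ) ≤ E := by exact_mod_cast hE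
  have hz0 : (0 : ℝ) < z := lt_of_lt_of_le (Real.exp_pos _) hz1
  set l := Real.log (z : ℝ) with hl
  have hl1 : (E : ℝ) ≤ l := by
    rw [hl, Real.le_log_iff_exp_le hz0]
    exact hz1
  have hxz : (z : ℝ) ^ E ≤ x := by exact_mod_cast hx1
  have hx0 : (0 : ℝ) < x := lt_of_lt_of_le (by positivity) hxz
  have hx0' : 0 < x := by exact_mod_cast hx0
  have hX : (E : ℝ) * l ≤ Real.log x := by
    rw [hl, ← Real.log_pow]
    exact Real.log_le_log (by positivity) hxz
  have hEE : (E : ℝ) * E ≤ E * l := mul_le_mul_of_nonneg_left hl1 (by linarith only [hE'])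
  have hEE2 : 2000 * (E : ℝ) ≤ E * E := mul_le_mul_of_nonneg_right hE' (by linarith only [hE'])
  have hX1 : 1 < Real.log x := by linarith only [hE', hX, hEE, hEE2]
  have hX0 : 0 < Real.log x := by linarith only [hE', hX, hEE, hEE2]
  set L2 := Real.log (Real.log x) with hL2
  have hL20 : 0 ≤ L2 := Real.log_nonneg hX1.le
  have hexpL2 : Real.exp L2 = Real.log x := Real.exp_log hX0
  have hEA' : 2000 + (A : ℝ) ^ 2 ≤ E := by exact_mod_cast hEA
  have hA0 : (0 : ℝ) ≤ A := Nat.cast_nonneg _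
  have hL2E : A * L2 < E := by
    by_contra hcon
    push Not at hcon
    have hL2p : 0 < L2 := by
      rcases eq_or_lt_of_le hL20 with h | h
      · rw [← h, mul_zero] at hcon
        linarith only [hE', hcon]
      · exact h
    have h1 : L2 ^ 2 ≤ A := by
      have h2 : L2 ^ 2 * L2 ≤ A * L2 := by
        calc L2 ^ 2 * L2 = L2 ^ 3 := by ring
          _ ≤ (E : ℝ) := hL3
          _ ≤ A * L2 := hcon
      exact le_of_mul_le_mul_right h2 hL2p
    have h3 : (E : ℝ) ^ 2 ≤ (A : ℝ) ^ 3 := by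
      calc (E : ℝ) ^ 2 ≤ (A * L2) ^ 2 := pow_le_pow_left₀ (by linarith only [hE']) hcon 2
        _ = (A : ℝ) ^ 2 * L2 ^ 2 := by ring
        _ ≤ (A : ℝ) ^ 2 * A := mul_le_mul_of_nonneg_left h1 (by positivity)
        _ = (A : ℝ) ^ 3 := by ring
    have h4 : (A : ℝ) ^ 3 ≤ (A : ℝ) ^ 4 + 1 := by
      rcases le_or_gt (A : ℝ) 1 with h | h
      · have : (A : ℝ) ^ 3 ≤ 1 := pow_le_one₀ hA0 h
        have h5 : (0 : ℝ) ≤ (A : ℝ) ^ 4 := by positivity
        linarith only [hE', hEE2, h3, this]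
      · have : (A : ℝ) ^ 3 ≤ (A : ℝ) ^ 4 := pow_le_pow_right₀ h.le (by norm_num)
        linarith only [this]
    have h5 : (2000 + (A : ℝ) ^ 2) ^ 2 ≤ (E : ℝ) ^ 2 := pow_le_pow_left₀ (by positivity) hEA' 2
    nlinarith only [h3, h4, h5, sq_nonneg (A : ℝ)]
  have hy3 : (y : ℝ) ≤ Real.exp (A * L2) := by
    refine hy2.trans (le_of_eq ?_)
    rw [← hexpL2, ← Real.exp_nat_mul]
  have hyz : (y : ℝ) < z := by
    calc (y : ℝ) ≤ Real.exp (A * L2) := hy3
      _ < Real.exp E := Real.exp_lt_exp.2 hL2E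
      _ ≤ z := hz1
  refine ⟨hl1, hX, hL20, hexpL2, by exact_mod_cast hyz, hy3, hx0', ?_⟩
  have h1 : (QQ x : ℝ) ≤ (4 : ℝ) ^ ⌊Real.log x / 20⌋₊ := by
    rw [QQ]
    exact_mod_cast primorial_le_four_pow _
  refine h1.trans ?_
  have h2 : (4 : ℝ) ^ ⌊Real.log x / 20⌋₊ = Real.exp ((⌊Real.log x / 20⌋₊ : ℝ) * Real.log 4) := by
    rw [mul_comm, Real.exp_mul, Real.exp_log (by norm_num), Real.rpow_natCast]
  rw [h2]
  apply Real.exp_le_exp.2
  have h3 : (⌊Real.log x / 20⌋₊ : ℝ) ≤ Real.log x / 20 := Nat.floor_le (by positivity)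
  have h4 : Real.log 4 ≤ 14 / 10 := by
    have : Real.log 4 = 2 * Real.log 2 := by
      rw [show (4 : ℝ) = 2 ^ 2 by norm_num, Real.log_pow]; norm_num
    rw [this]
    linarith only [Real.log_two_lt_d9]
  have h5 : 0 ≤ Real.log 4 := Real.log_nonneg (by norm_num)
  calc (⌊Real.log x / 20⌋₊ : ℝ) * Real.log 4 ≤ Real.log x / 20 * (14 / 10) :=
        mul_le_mul h3 h4 h5 (by positivity)
    _ = 7 / 100 * Real.log x := by ring

theorem srA_sr (A E z x y : ℕ) (hE : 2000 ≤ E) (hSr : SrA A E z x y) :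
    ∃ y' : ℕ, Sr E z x y' := by
  obtain ⟨hz1, hx1, hx2, hy1, hy2, hL3⟩ := hSr
  have hE' : (2000 : ℝ) ≤ E := by exact_mod_cast hE
  have hz0 : (0 : ℝ) < z := lt_of_lt_of_le (Real.exp_pos _) hz1
  have hl1 : (E : ℝ) ≤ Real.log (z : ℝ) := by
    rw [Real.le_log_iff_exp_le hz0]
    exact hz1
  have hxz : (z : ℝ) ^ E ≤ x := by exact_mod_cast hx1
  have hX : (E : ℝ) * Real.log (z : ℝ) ≤ Real.log x := by
    rw [← Real.log_pow]
    exact Real.log_le_log (by positivity) hxz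
  have hEE : (E : ℝ) * E ≤ E * Real.log (z : ℝ) := mul_le_mul_of_nonneg_left hl1 (by linarith)
  have hEE2 : 2000 * (E : ℝ) ≤ E * E := mul_le_mul_of_nonneg_right hE' (by linarith)
  have hL : 2 ≤ Real.log x := by linarith
  refine ⟨⌈Real.log x⌉₊, hz1, hx1, hx2, Nat.le_ceil _, ?_, hL3⟩
  have h1 : (⌈Real.log x⌉₊ : ℝ) < Real.log x + 1 := Nat.ceil_lt_add_one (by linarith only [hE', hX, hEE, hEE2])
  nlinarith only [hE', hEE2, hX, hEE, h1]

theorem era0 (h1 : StmtEBA) (h2 : StmtTE) : StmtERA := by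
  intro A C hC
  obtain ⟨x0, hEB⟩ := h1 A
  obtain ⟨c, hc, E1, hTE⟩ := h2
  obtain ⟨c2, hc2, hom⟩ := om_lower
  set c0 : ℝ := min c (1 / 500) with hc0def
  have hc0 : 0 < c0 := lt_min hc (by norm_num)
  have hcc : c0 ≤ c := min_le_left _ _
  have hc5 : c0 ≤ 1 / 500 := min_le_right _ _
  have ha3 : (3 : ℝ) ≤ 3 * C ^ 2 := by nlinarith only [hC]
  have ha1 : (1 : ℝ) ≤ 3 * C ^ 2 := by linarith
  have ha0 : (0 : ℝ) < 3 * C ^ 2 := by linarith
  have hla : 0 ≤ Real.log (3 * C ^ 2) := Real.log_nonneg ha1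
  set M : ℝ := 2 + Real.log (3 * C ^ 2) + 3 * |Real.log c2| with hM
  have habs := abs_nonneg (Real.log c2)
  have hle_abs := le_abs_self (Real.log c2)
  have hM0 : 0 ≤ M := by positivity
  obtain ⟨E2, hE2⟩ := thrA A c0 M hc0 hM0
  refine ⟨c0 / 2, by positivity, max (max E1 E2) (max x0 (2000 + A ^ 2)),
    fun E z x y hE hSr b hb K hK P hP j hj hjP => ?_⟩
  have hE1 : E1 ≤ E := le_trans (le_trans (le_max_left _ _) (le_max_left _ _)) hE
  have hE2' : E2 ≤ E := le_trans (le_trans (le_max_right _ _) (le_max_left _ _)) hE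
  have hEx0 : x0 ≤ E := le_trans (le_trans (le_max_left _ _) (le_max_right _ _)) hE
  have h2000A : 2000 + A ^ 2 ≤ E :=
    le_trans (le_trans (le_max_right _ _) (le_max_right _ _)) hE
  have h2000 : 2000 ≤ E := by omega
  obtain ⟨hexp, hthr⟩ := hE2 E hE2'
  obtain ⟨hl, hX, hw0, hwexp, hyz, hyw, hx0', hQle⟩ := parA A E z x y h2000A hSr
  obtain ⟨hz1, hx1, hx2, hy1, hy2, hL3⟩ := id hSr
  obtain ⟨y', hSr'⟩ := srA_sr A E z x y h2000 hSr
  have hE' : (2000 : ℝ) ≤ E := by exact_mod_cast h2000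
  set l := Real.log (z : ℝ) with hldef
  set L := Real.log (x : ℝ) with hLdef
  set w := Real.log L with hwdef
  set Q := QQ x with hQdef
  set Dm := z ^ (2 * (E / 16)) with hDmdef
  set X := XI (x / 32) x Q with hXdef
  have hAw : 0 ≤ (A : ℝ) * w := mul_nonneg (Nat.cast_nonneg _) hw0
  set σ := ∑ p ∈ pr y z, 1 / (p : ℝ) with hσdef
  have hQ0 : 0 < Q := primorial_pos _
  have hQ0' : (0 : ℝ) < Q := by exact_mod_cast hQ0
  have hz0 : (0 : ℝ) < z := lt_of_lt_of_le (Real.exp_pos _) hz1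
  have hexpl : Real.exp l = z := Real.exp_log hz0
  have hxr0 : (0 : ℝ) < x := by exact_mod_cast hx0'
  have hexpL : Real.exp L = x := Real.exp_log hxr0
  have hzE : (E : ℝ) + 1 ≤ z := (Real.add_one_le_exp (E : ℝ)).trans hz1
  have hzE' : E + 1 ≤ z := by exact_mod_cast hzE
  have hEl : 2000 * l ≤ (E : ℝ) * l := mul_le_mul_of_nonneg_right hE' (by linarith only [hc0, hc5, hE', hl])
  have hEE : (E : ℝ) * E ≤ E * l := mul_le_mul_of_nonneg_left hl (by linarith only [hc0, hc5, hE'])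
  have hEE2 : 2000 * (E : ℝ) ≤ E * E := mul_le_mul_of_nonneg_right hE' (by linarith only [hc0, hc5, hE'])
  have hL1 : 1 < L := by linarith only [hc0, hc5, hE', hl, hX, hEl]
  have hzx : z ≤ x := le_trans (Nat.le_self_pow (by omega) z) hx1
  have hx2' : 2 ≤ x := by omega
  have hxx0 : x0 ≤ x := by omega
  have hy0 : 1 ≤ y := by
    have : (1 : ℝ) ≤ y := by linarith only [hc0, hc5, hE', hl, hy1, hX, hEl]
    exact_mod_cast this
  -- the sizes
  have hzpow : ∀ n : ℕ, ((z ^ n : ℕ) : ℝ) = Real.exp (n * l) := by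
    intro n
    rw [Real.exp_nat_mul, hexpl]
    push_cast
    rfl
  have hDmle : (Dm : ℝ) ≤ Real.exp (1 / 8 * (E * l)) := by
    rw [hDmdef, hzpow]
    apply Real.exp_le_exp.2
    have h3 : ((2 * (E / 16) : ℕ) : ℝ) ≤ (E : ℝ) / 8 := by
      have h4 : 8 * (2 * (E / 16)) ≤ E := by omega
      have h5 : (8 : ℝ) * ((2 * (E / 16) : ℕ) : ℝ) ≤ E := by exact_mod_cast h4
      linarith only [h5]
    have := mul_le_mul_of_nonneg_right h3 (show 0 ≤ l by linarith only [hc0, hc5, hE', hl])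
    linarith only [this]
  have hzr : ((z ^ (E / 32) : ℕ) : ℝ) ≤ Real.exp (1 / 32 * (E * l)) := by
    rw [hzpow]
    apply Real.exp_le_exp.2
    have h3 : ((E / 32 : ℕ) : ℝ) ≤ (E : ℝ) / 32 := Nat.cast_div_le
    have := mul_le_mul_of_nonneg_right h3 (show 0 ≤ l by linarith only [hc0, hc5, hE', hl])
    linarith only [this]
  have hDmx : Dm ≤ x := by
    have h3 : (Dm : ℝ) ≤ x := by
      rw [← hexpL]
      exact hDmle.trans (Real.exp_le_exp.2 (by linarith only [hc0, hc5, hE', hl, hX, hEl]))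
    exact_mod_cast h3
  have hDm2 : 2 ≤ Dm := by
    rw [hDmdef]
    exact le_trans (by omega) (Nat.le_self_pow (by omega) z)
  -- the sum of the reciprocals of the primes
  have hsig : ∀ u v : ℕ, 2 ≤ v → v ≤ x → ∑ p ∈ pr u v, 1 / (p : ℝ) ≤ Real.log c2 + w := by
    intro u v hv hvx
    have h3 := (hom u v hv).1
    have hlv : 0 < Real.log v := Real.log_pos (by exact_mod_cast hv)
    have hlvL : Real.log v ≤ L := Real.log_le_log (by exact_mod_cast (by omega : 0 < v))
      (by exact_mod_cast hvx)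
    have h4 : Real.exp (-(Real.log c2 + w)) ≤ om u v := by
      rw [Real.exp_neg, Real.exp_add, Real.exp_log hc2, hwexp]
      refine le_trans ?_ h3
      rw [← one_div]
      apply one_div_le_one_div_of_le (by positivity)
      exact mul_le_mul_of_nonneg_left hlvL hc2.le
    have h5 := Real.exp_le_exp.1 (h4.trans (sum_pr_le u v))
    linarith only [h5]
  have hσ : σ ≤ Real.log c2 + w := hsig y z (by omega) hzx
  have hσ0 : 0 ≤ σ := Finset.sum_nonneg fun p _ => by positivity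
  have hthrK := hthr w hw0 hL3 K hK
  have hthr0 := hthr w hw0 hL3 0 (Nat.zero_le _)
  have hK0 : (0 : ℝ) ≤ K := Nat.cast_nonneg _
  have hKσ : K * σ ≤ c0 / 8 * E := by
    refine le_trans ?_ hthrK
    calc K * σ ≤ K * (Real.log c2 + w) := mul_le_mul_of_nonneg_left hσ hK0
      _ ≤ ((K : ℝ) + 1) * (M + (2 * A + 5) * w) := by
          apply mul_le_mul (by linarith only [hc0, hc5]) (by rw [hM]; linarith only [hc0, hc5, hla, habs, hle_abs, hw0, hAw]) _ (by positivity)
          linarith only [hσ, hσ0]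
  -- the sum over all labels
  have hcardP : Fintype.card P ≤ y := by
    rw [Fintype.card_coe]
    exact (card_le_card hP).trans (by simp)
  set S := ∑ d ∈ (DS z Dm K : Finset (P → ℕ)), ∏ i, hh (3 * C ^ 2) (d i) with hSdef
  have hS0 : 0 ≤ S := Finset.sum_nonneg fun d _ => Finset.prod_nonneg fun i _ => hh_nonneg ha0.le _
  have hSle : S ≤ Real.exp (c0 / 8 * E) := by
    set σ' := ∑ p ∈ pr z Dm, 1 / (p : ℝ) with hσ'
    have hσ'le : σ' ≤ Real.log c2 + w := hsig z Dm hDm2 hDmx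
    have hσ'0 : 0 ≤ σ' := Finset.sum_nonneg fun p _ => by positivity
    have h3 : ∑ m ∈ SS z (Dm + 1), (3 * C ^ 2) * 3 ^ m.primeFactors.card / (m : ℝ) ≤
        (3 * C ^ 2) * Real.exp (3 * σ') := by
      refine le_trans (le_of_eq ?_) (mul_le_mul_of_nonneg_left (H_le z Dm) ha0.le)
      rw [Finset.mul_sum]
      exact Finset.sum_congr rfl fun m _ => by ring
    have h4 : 1 ≤ (3 * C ^ 2) * Real.exp (3 * σ') := by
      have h5 : 1 ≤ Real.exp (3 * σ') := Real.one_le_exp (by positivity)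
      calc (1 : ℝ) = 1 * 1 := (one_mul 1).symm
        _ ≤ _ := mul_le_mul ha1 h5 (by norm_num) ha0.le
    have h5 := S_le (ι := P) z Dm K y (3 * C ^ 2) ((3 * C ^ 2) * Real.exp (3 * σ')) ha0.le hcardP hy0
      h4 h3
    refine h5.trans ?_
    have h6 : (y : ℝ) * ((3 * C ^ 2) * Real.exp (3 * σ')) ≤
        Real.exp (A * w + (Real.log (3 * C ^ 2) + 3 * (Real.log c2 + w))) := by
      rw [Real.exp_add, Real.exp_add, Real.exp_log ha0]
      gcongr
    calc Real.exp 1 * ((y : ℝ) * ((3 * C ^ 2) * Real.exp (3 * σ'))) ^ K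
        ≤ Real.exp 1 * (Real.exp (A * w + (Real.log (3 * C ^ 2) + 3 * (Real.log c2 + w)))) ^ K := by
          gcongr
      _ = Real.exp (1 + K * (A * w + (Real.log (3 * C ^ 2) + 3 * (Real.log c2 + w)))) := by
          rw [Real.exp_add 1, Real.exp_nat_mul]
      _ ≤ Real.exp (c0 / 8 * E) := by
          apply Real.exp_le_exp.2
          refine le_trans ?_ hthrK
          have h7 : (K : ℝ) * (A * w + (Real.log (3 * C ^ 2) + 3 * (Real.log c2 + w))) ≤
              K * (M + (2 * A + 5) * w) := by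
            apply mul_le_mul_of_nonneg_left _ hK0
            rw [hM]
            linarith only [hc0, hc5, hle_abs, hw0, hAw]
          have h8 : 1 ≤ M + (2 * A + 5) * w := by
            rw [hM]
            linarith only [hc0, hc5, hla, habs, hw0, hAw]
          calc _ ≤ (M + (2 * A + 5) * w) + K * (M + (2 * A + 5) * w) := add_le_add h8 h7
            _ = _ := by ring
  have hWle : ((Fintype.card P + 1 : ℕ) : ℝ) ^ K * (3 * C ^ 2) ^ K ≤ Real.exp (c0 / 8 * E) := by
    have h3 : ((Fintype.card P + 1 : ℕ) : ℝ) * (3 * C ^ 2) ≤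
        Real.exp (1 + A * w + Real.log (3 * C ^ 2)) := by
      rw [Real.exp_add, Real.exp_log ha0]
      apply mul_le_mul_of_nonneg_right _ ha0.le
      have h4 : ((Fintype.card P + 1 : ℕ) : ℝ) ≤ y + 1 := by
        exact_mod_cast Nat.succ_le_succ hcardP
      have h5 : (1 : ℝ) ≤ Real.exp (A * w) := Real.one_le_exp (by positivity)
      have h6 : (2 : ℝ) ≤ Real.exp 1 := by
        have := Real.add_one_le_exp (1 : ℝ)
        linarith only [this]
      calc ((Fintype.card P + 1 : ℕ) : ℝ) ≤ y + 1 := h4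
        _ ≤ Real.exp (A * w) + Real.exp (A * w) := add_le_add hyw h5
        _ = 2 * Real.exp (A * w) := by ring
        _ ≤ Real.exp 1 * Real.exp (A * w) := mul_le_mul_of_nonneg_right h6 (Real.exp_pos _).le
        _ = _ := (Real.exp_add _ _).symm
    rw [← mul_pow]
    calc (((Fintype.card P + 1 : ℕ) : ℝ) * (3 * C ^ 2)) ^ K
        ≤ (Real.exp (1 + A * w + Real.log (3 * C ^ 2))) ^ K :=
          pow_le_pow_left₀ (by positivity) h3 K
      _ = Real.exp (K * (1 + A * w + Real.log (3 * C ^ 2))) := (Real.exp_nat_mul _ _).symm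
      _ ≤ Real.exp (c0 / 8 * E) := by
          apply Real.exp_le_exp.2
          refine le_trans ?_ hthrK
          apply mul_le_mul (by linarith only [hc0, hc5]) _ (by positivity) (by linarith only [hc0, hc5])
          rw [hM]
          linarith only [hc0, hc5, habs, hw0, hAw]
  have hFle : (K * σ) ^ (E / 32 + 1) / ((E / 32 + 1).factorial : ℝ) ≤ Real.exp (-((E : ℝ) / 16)) := by
    have h3 := fact_est (K * σ) (E / 32 + 1) ((E : ℝ) / 2) (by positivity) (by
      refine hKσ.trans ?_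
      have : c0 * E ≤ 1 / 500 * E := mul_le_mul_of_nonneg_right hc5 (by linarith only [hc0, hc5, hE'])
      linarith only [this]) (by
      have h4 : E ≤ 32 * (E / 32 + 1) := by omega
      have h5 : (E : ℝ) ≤ 32 * ((E / 32 + 1 : ℕ) : ℝ) := by exact_mod_cast h4
      linarith only [h5]) (by linarith only [hc0, hc5, hE'])
    refine h3.trans (le_of_eq ?_)
    congr 1
    ring
  -- the number of integers
  have hXlow : 1 / 2 * Real.exp (65 / 100 * (E * l)) ≤ X := by
    have h3 := M_lower E z x h2000 (by linarith only [hc0, hc5, hE', hl]) hx1 1 one_pos (one_le_pow₀ (by linarith only [hc0, hc5, hE', hzE]))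
    rw [div_one] at h3
    refine h3.trans ?_
    rw [XX, hXdef, XI]
    apply div_le_div_of_nonneg_right _ hQ0'.le
    have h4 : x - x / 2 ≤ x - x / 32 := by omega
    exact_mod_cast h4
  have hxQ : (x : ℝ) / Q ≤ 2 * X := by
    rw [hXdef, XI, ← mul_div_assoc]
    apply div_le_div_of_nonneg_right _ hQ0'.le
    have h4 : x ≤ 2 * (x - x / 32) := by omega
    exact_mod_cast h4
  have hEl0 : 0 ≤ (E : ℝ) * l := by nlinarith only [hc0, hc5, hE', hl, hEl]
  have hX1 : 1 ≤ X := by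
    refine le_trans ?_ hXlow
    have := Real.add_one_le_exp (65 / 100 * ((E : ℝ) * l))
    linarith only [hc0, hc5, hE', hl, hEl, this]
  have hX0 : 0 ≤ X := by linarith only [hc0, hc5, hX1]
  have hcard : ((NI (x / 32) x Q b).card : ℝ) ≤ 2 * X := by
    have := NI_card (x / 32) x Q b hb (Nat.div_le_self _ _)
    linarith only [hX1, this]
  have hsg : ∀ d : P → ℕ, 0 ≤ CN x y z j (NI (x / 32) x Q b) d ∧
      CN x y z j (NI (x / 32) x Q b) d ≤ 2 * X := fun d => by
    obtain ⟨h3, h4⟩ := CN_bd x y z j hx2' (NI (x / 32) x Q b) d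
    exact ⟨h3, h4.trans hcard⟩
  have hpQ : ∀ p : ℕ, p.Prime → p ∣ Q → p ≤ z := by
    intro p hp hpd
    have h3 := (Nat.Prime.dvd_primorial_iff hp).1 hpd
    have h4 : (⌊Real.log x / 20⌋₊ : ℝ) ≤ Real.log x / 20 := Nat.floor_le (by
      have : 0 ≤ L := by linarith only [hc0, hc5, hE', hl, hX, hEl]
      positivity)
    have h5 : (p : ℝ) ≤ (⌊Real.log x / 20⌋₊ : ℝ) := by exact_mod_cast h3
    have h6 : (p : ℝ) ≤ y := by
      have : L / 20 ≤ L := by linarith only [hc0, hc5, hE', hl, hX, hEl]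
      linarith only [hc0, hc5, hE', hl, hy1, hX, hEl, h4, h5]
    have h7 : p ≤ y := by exact_mod_cast h6
    omega
  have hK9 : (3 * K) ^ 2 ≤ E := by
    rcases le_or_gt K 9 with h | h
    · have : (3 * K) ^ 2 ≤ (3 * 9) ^ 2 := Nat.pow_le_pow_left (by omega) 2
      omega
    · calc (3 * K) ^ 2 = 9 * K ^ 2 := by ring
        _ ≤ K * K ^ 2 := Nat.mul_le_mul_right _ h.le
        _ = K ^ 3 := by ring
        _ ≤ E := hK
  -- split
  rw [← Finset.sum_filter_add_sum_filter_not (DS z Dm K : Finset (P → ℕ)) (fun d => Cop d)]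
  have hcop := cop_sum x y z K Dm (E / 32) E j (NI (x / 32) x Q b) P (3 * C ^ 2) X
    (Real.exp (-(c * E))) x ha1 hX0 (by omega) (by omega) hDmdef hsg hxr0.le Q hQ0
    (by
      intro d hd hcd
      obtain ⟨hm1, hm2, hm3⟩ := mem_DS.1 hd
      have hsize : Q * z ^ (E / 32) * (∏ i, max 1 (d i)) ^ 2 ≤ x / 32 := by
        rw [Nat.le_div_iff_mul_le (by norm_num)]
        have h3 : (Q : ℝ) * ((z ^ (E / 32) : ℕ) : ℝ) * ((Dm : ℕ) : ℝ) ^ 2 * 32 ≤ x := by
          have h4 : (32 : ℝ) ≤ Real.exp 31 := by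
            have := Real.add_one_le_exp (31 : ℝ)
            linarith only [this]
          calc (Q : ℝ) * ((z ^ (E / 32) : ℕ) : ℝ) * ((Dm : ℕ) : ℝ) ^ 2 * 32
              ≤ Real.exp (7 / 100 * L) * Real.exp (1 / 32 * (E * l)) *
                (Real.exp (1 / 8 * (E * l))) ^ 2 * Real.exp 31 := by gcongr
            _ = Real.exp (7 / 100 * L + 1 / 32 * (E * l) + 2 * (1 / 8 * (E * l)) + 31) := by
                rw [Real.exp_add, Real.exp_add, Real.exp_add, two_mul, Real.exp_add]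
                ring
            _ ≤ Real.exp L := Real.exp_le_exp.2 (by linarith only [hc0, hc5, hE', hl, hX, hEl])
            _ = x := hexpL
        have h5 : Q * z ^ (E / 32) * Dm ^ 2 * 32 ≤ x := by exact_mod_cast h3
        refine le_trans ?_ h5
        have h6 : (∏ i, max 1 (d i)) ^ 2 ≤ Dm ^ 2 := Nat.pow_le_pow_left hm2 2
        exact Nat.mul_le_mul_right _ (Nat.mul_le_mul_left _ h6)
      exact hEB x y z b j (E / 32) hxx0 hy1 hy2 hyz.le hb hj P hP hjP d
        (fun i => (hm1 i).imp_right fun h => h.2.2) (fun i i' h1 h2 h3 => hcd i i' h1 h2 h3) hsize)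
    (by
      intro A' hA f hf
      obtain ⟨hA1, hA2⟩ := mem_filter.1 hA
      have hAs := mem_powerset.1 hA1
      have hprodA : ∏ p ∈ A', p ≤ z ^ (E / 32) := by
        calc ∏ p ∈ A', p ≤ ∏ p ∈ A', z := Finset.prod_le_prod' fun p hp => (mem_pr.1 (hAs hp)).2.1
          _ = z ^ A'.card := by rw [Finset.prod_const]
          _ ≤ z ^ (E / 32) := Nat.pow_le_pow_right (by omega) hA2
      have hA0 : 0 < ∏ p ∈ A', p := Finset.prod_pos fun p hp => (mem_pr.1 (hAs hp)).2.2.pos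
      refine hTE E z x y' hE1 hSr' (Q * ∏ p ∈ A', p) (3 * K) (Nat.mul_pos hQ0 hA0) ?_ hK9 ?_ f hf
      · intro p hp hpd
        rcases (Nat.Prime.dvd_mul hp).1 hpd with h | h
        · exact hpQ p hp h
        · obtain ⟨q, hq, h3⟩ := (Nat.Prime.prime hp).exists_mem_finset_dvd h
          have h4 := mem_pr.1 (hAs hq)
          have h5 := Nat.le_of_dvd h4.2.2.pos h3
          omega
      · have h3 : ((Q : ℝ) * ((z ^ (E / 32) : ℕ) : ℝ) * ((Dm : ℕ) : ℝ)) ^ 4 ≤ x := by
          calc ((Q : ℝ) * ((z ^ (E / 32) : ℕ) : ℝ) * ((Dm : ℕ) : ℝ)) ^ 4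
              ≤ (Real.exp (7 / 100 * L) * Real.exp (1 / 32 * (E * l)) *
                Real.exp (1 / 8 * (E * l))) ^ 4 := by gcongr
            _ = Real.exp (((4 : ℕ) : ℝ) * (7 / 100 * L + 1 / 32 * (E * l) + 1 / 8 * (E * l))) := by
                rw [Real.exp_nat_mul, Real.exp_add, Real.exp_add]
            _ ≤ Real.exp L := Real.exp_le_exp.2 (by push_cast; linarith only [hc0, hc5, hE', hl, hX, hEl])
            _ = x := hexpL
        have h5 : (Q * z ^ (E / 32) * Dm) ^ 4 ≤ x := by exact_mod_cast h3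
        refine le_trans (Nat.pow_le_pow_left ?_ 4) h5
        exact Nat.mul_le_mul_right _ (Nat.mul_le_mul_left _ hprodA)) (Real.exp_pos _).le
  have hnon : ∑ d ∈ (DS z Dm K : Finset (P → ℕ)).filter (fun d => ¬ Cop d),
      (∏ i, (if d i = 0 then 1 else 3 * C ^ 2 * 3 ^ (d i).primeFactors.card)) *
      |CN x y z j (NI (x / 32) x Q b) d - CN x y z j (NI (x / 32) x Q b) (fun i => sg (d i)) *
          ∏ i, (if d i = 0 then 1 else 1 / (d i : ℝ))| ≤
      2 * X * ((y : ℝ) ^ 2 * (9 / z) * S) := by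
    calc _ ≤ ∑ d ∈ (DS z Dm K : Finset (P → ℕ)).filter (fun d => ¬ Cop d),
          2 * X * ∏ i, hh (3 * C ^ 2) (d i) := by
          refine Finset.sum_le_sum fun d hd => ?_
          obtain ⟨hd1, hd2⟩ := mem_filter.1 hd
          obtain ⟨hm1, _, _⟩ := mem_DS.1 hd1
          rw [CN_zero x y z j hyz.le _ hP d (fun i => (hm1 i).imp_right fun h => h.2.2) hd2,
            inv_D, w_hh, zero_sub, abs_neg]
          have h3 : (0 : ℝ) ≤ 1 / ((∏ i, max 1 (d i) : ℕ) : ℝ) := by positivity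
          rw [abs_of_nonneg (mul_nonneg (hsg _).1 h3)]
          have h4 : 0 ≤ ∏ i, (if d i = 0 then (1 : ℝ) else
              3 * C ^ 2 * 3 ^ (d i).primeFactors.card) := Finset.prod_nonneg fun i _ => by
            split_ifs
            · norm_num
            · positivity
          have h5 := mul_le_mul_of_nonneg_right (hsg (fun i => sg (d i))).2 h3
          have h6 := mul_le_mul_of_nonneg_left h5 h4
          refine h6.trans (le_of_eq ?_)
          ring
      _ = 2 * X * ∑ d ∈ (DS z Dm K : Finset (P → ℕ)).filter (fun d => ¬ Cop d),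
          ∏ i, hh (3 * C ^ 2) (d i) := by rw [← Finset.mul_sum]
      _ ≤ _ := by
          apply mul_le_mul_of_nonneg_left _ (by positivity)
          exact noncop_le z Dm K y (3 * C ^ 2) ha0.le (by omega) hcardP
  have hyy : (y : ℝ) ^ 2 ≤ Real.exp (c0 / 8 * E) := by
    calc (y : ℝ) ^ 2 ≤ (Real.exp (A * w)) ^ 2 := pow_le_pow_left₀ (Nat.cast_nonneg _) hyw 2
      _ = Real.exp (((2 : ℕ) : ℝ) * (A * w)) := (Real.exp_nat_mul _ _).symm
      _ ≤ Real.exp (c0 / 8 * E) := by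
          apply Real.exp_le_exp.2
          refine le_trans ?_ hthr0
          push_cast
          linarith only [hc0, hc5, hla, habs, hw0]
  have hKz : K ≤ z := by
    have : K ≤ K ^ 3 := Nat.le_self_pow (by norm_num) K
    omega
  have hfin := fin_num E K z c c0 l X (x / Q) S
    (((Fintype.card P + 1 : ℕ) : ℝ) ^ K * (3 * C ^ 2) ^ K)
    ((K * σ) ^ (E / 32 + 1) / ((E / 32 + 1).factorial : ℝ)) (Real.exp (K * σ)) Dm ((y : ℝ) ^ 2)
    h2000 hc0 hcc hc5 hl hexpl hXlow (by positivity) hxQ hS0 hSle hWle (by positivity) hFle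
    (Real.exp_le_exp.2 hKσ) (Real.exp_pos _).le (by positivity) hyy hDmle (Nat.cast_nonneg _) hKz
    hexp
  refine le_trans (add_le_add hcop hnon) (le_trans (le_of_eq ?_) hfin)
  ring


/-- ERA. -/
theorem era (h1 : StmtEBA) : StmtERA := era0 h1 (Pool.Agent.Helper88.CG.te Pool.Agent.Helper88.CG.mRB)

end Pool.Agent.Helper26.MC
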